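import Pool.Agent.Helper92.FR.GoalsC

/-!
# FR, packet PTP: the test of the tilt is computed in polynomial time
-/

namespace Pool.Agent.Helper12.FR

open Pool.Agent.Helper81.CC Pool.Agent.Bin Pool.Agent.Helper92.VP Pool.Agent.Helper92.FR

theorem pt_dot12 {β : Type} [ToData β] {x y : β → List Qn} (hx : PolyTime x) (hy : PolyTime y) :
    PolyTime (fun a => dot (x a) (y a)) := by
  unfold dot
  apply PT_qsum
  apply PolyTime.zipWith _ hx hy
  fun_prop

theorem ptp (h1 : PttStmt) (h2 : PtgStmt) : PtpStmt := by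
  intro α _ D lam P K m W hD hlam hP hK hm hW hmW
  have hh1 := (h2 α D lam P K hD hlam hP hK).1
  have hg := (h2 α D lam P K hD hlam hP hK).2
  have ht := (h1 α (fun a => hh (D a) (lam a)) m W hh1 hm hW hmW).1
  unfold Pool.Agent.Helper92.FR.pass
  refine PT_qle ?_ (PolyTime.const _)
  refine PT_qsum ?_
  refine PolyTime.list_map ht ?_
  have hd : PolyTime (fun z : α × List Qn => dot z.2 (gtil (D z.1) (lam z.1) (P z.1) (K z.1))) := by
    refine pt_dot12 (by fun_prop) ?_
    exact PolyTime.comp (g := fun a => gtil (D a) (lam a) (P a) (K a))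
      (f := fun z : α × List Qn => z.1) hg (by fun_prop)
  exact PT_qmul hd hd

end Pool.Agent.Helper12.FR
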